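import Pool.Agent.W2helper37.SG.Stm

/-!
# PIECE SUM of project SG: the action on a stable summand
-/

set_option autoImplicit false
set_option linter.unusedSectionVars false
set_option linter.unusedSimpArgs false
set_option backward.isDefEq.respectTransparency false
set_option backward.defeqAttrib.useBackward true

open CategoryTheory Limits MonoidalCategory
open Pool.Agent.Y112.SR Pool.Agent.Y112.KD Pool.Agent.Y112.SC
open Pool.Agent.W2helper37.SG

namespace Pool.Agent.W2helper47.SG

universe v u w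

open Functor.LaxMonoidal Functor.OplaxMonoidal

section Lin

variable {K : Type w} [Field K]

/-- tensor products of operators over a field -/
lemma map_cancel {V W : Type w} [AddCommGroup V] [Module K V] [AddCommGroup W] [Module K W]
    (e : V →ₗ[K] V) (he : e ≠ 0) (b b' : W →ₗ[K] W)
    (h : TensorProduct.map e b = TensorProduct.map e b') : b = b' := by
  obtain ⟨x, hx⟩ : ∃ x, e x ≠ 0 := by
    by_contra hcon
    push Not at hcon
    exact he (LinearMap.ext hcon)
  obtain ⟨φ, hφ⟩ : ∃ φ : V →ₗ[K] K, φ (e x) = 1 := by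
    by_contra hcon
    push Not at hcon
    have : ∀ φ : V →ₗ[K] K, φ (e x) = 0 := by
      intro φ
      by_contra h0
      apply hcon ((φ (e x))⁻¹ • φ)
      simp [h0]
    exact hx ((Module.forall_dual_apply_eq_zero_iff K (e x)).mp this)
  ext t
  have h1 := congrArg (fun f => (TensorProduct.lid K W) ((φ.rTensor W) (f (x ⊗ₜ[K] t)))) h
  simpa [TensorProduct.map_tmul, hφ] using h1

variable {ι : Type} [Fintype ι] [DecidableEq ι]

lemma glRel_sum (o : ι → Bool) {T P : Type w} [AddCommGroup T] [Module K T] [AddCommGroup P]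
    [Module K P] (A : ι → ι → Module.End K T) (i : P →ₗ[K] T) (r : T →ₗ[K] P)
    (hir : r ∘ₗ i = LinearMap.id) (hc : ∀ k l, Commute (i ∘ₗ r : Module.End K T) (A k l))
    (h : GlRel o A) : GlRel o (fun k l => (r ∘ₗ A k l ∘ₗ i : Module.End K P)) := by
  have hri : ∀ x, r (i x) = x := fun x => LinearMap.congr_fun hir x
  have key : ∀ k i' l j, (r ∘ₗ A k i' ∘ₗ i : Module.End K P) * (r ∘ₗ A l j ∘ₗ i) =
      r ∘ₗ (A k i' * A l j) ∘ₗ i := by
    intro k i' l j
    ext x
    have h1 := LinearMap.congr_fun (hc l j).eq (i x)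
    simp only [Module.End.mul_apply, LinearMap.comp_apply, hri] at h1 ⊢
    rw [h1]
  intro k i' l j
  have h2 := congrArg (fun f : Module.End K T => (r ∘ₗ f ∘ₗ i : Module.End K P)) (h k i' l j)
  simp only [LinearMap.sub_comp, LinearMap.comp_sub, LinearMap.smul_comp,
    LinearMap.comp_smul] at h2
  rw [key, key]
  refine h2.trans ?_
  congr 1
  · split_ifs
    · simp only [LinearMap.smul_comp, LinearMap.comp_smul]
    · simp
  · split_ifs
    · simp only [LinearMap.smul_comp, LinearMap.comp_smul]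
    · simp

lemma parRel_sum (o : ι → Bool) {T P : Type w} [AddCommGroup T] [Module K T] [AddCommGroup P]
    [Module K P] (A : ι → ι → Module.End K T) (i : P →ₗ[K] T) (r : T →ₗ[K] P)
    (s : Module.End K T) (s' : Module.End K P) (hi : ∀ x, s (i x) = i (s' x))
    (hr : ∀ x, s' (r x) = r (s x)) (h : ParRel o s A) :
    ParRel o s' (fun k l => (r ∘ₗ A k l ∘ₗ i : Module.End K P)) := by
  intro k l
  ext x
  have h1 := LinearMap.congr_fun (h k l) (i x)
  simp only [Module.End.mul_apply, LinearMap.smul_apply, LinearMap.comp_apply] at h1 ⊢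
  rw [hr, h1, map_smul, hi]

end Lin

section Real

variable {C : Type u} [Category.{v} C] [Preadditive C] [MonoidalCategory C] [SymmetricCategory C]
  [RightRigidCategory C] {K : Type w} [Field K] (R : SuperRealisation C K)
  {ι : Type} [Fintype ι] [DecidableEq ι]

lemma bx_cancel {M X : C} (e : R.H.obj M ⟶ R.H.obj M) (he : e ≠ 0)
    (b b' : R.H.obj X ⟶ R.H.obj X) (h : bx R e b = bx R e b') : b = b' := by
  have h1 : (e ⊗ₘ b) = (e ⊗ₘ b') := by
    have h2 := congrArg (fun z => μ R.H M X ≫ z ≫ δ R.H M X) h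
    simpa [bx] using h2
  have h3 : TensorProduct.map e.hom b.hom = TensorProduct.map e.hom b'.hom :=
    congrArg ModuleCat.Hom.hom h1
  have he' : e.hom ≠ 0 := fun h0 => he (ModuleCat.hom_ext h0)
  exact ModuleCat.hom_ext (map_cancel e.hom he' b.hom b'.hom h3)

lemma bx_sum_comp {M X : C} (e : ι → ι → (R.H.obj M ⟶ R.H.obj M)) (o : ι → Bool)
    (he : Units R M o e) (B : ι → ι → (R.H.obj X ⟶ R.H.obj X)) (i₀ k₀ : ι) :
    bx R (e i₀ i₀) (𝟙 _) ≫ (∑ i, ∑ k, bx R (e i k) (B k i)) ≫ bx R (e k₀ i₀) (𝟙 _) =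
      bx R (e i₀ i₀) (B k₀ i₀) := by
  simp only [Preadditive.comp_sum, Preadditive.sum_comp, bx_comp, Category.id_comp,
    Category.comp_id, he.mul]
  rw [Finset.sum_eq_single i₀, Finset.sum_eq_single k₀]
  · simp [he.mul]
  · intro k _ hk
    simp only [if_true, he.mul, if_neg hk]
    exact bx_zero_left R _
  · simp
  · intro i _ hi
    refine Finset.sum_eq_zero fun k _ => ?_
    by_cases hk : k = k₀
    · rw [if_pos hk, he.mul, if_neg (Ne.symm hi)]
      exact bx_zero_left R _
    · rw [if_neg hk, Limits.comp_zero]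
      exact bx_zero_left R _
  · simp

lemma re_unique {M X : C} (e : ι → ι → (R.H.obj M ⟶ R.H.obj M)) (o : ι → Bool)
    (he : Units R M o e) (B B' : ι → ι → (R.H.obj X ⟶ R.H.obj X))
    (h : (∑ i, ∑ k, bx R (e i k) (B k i)) = ∑ i, ∑ k, bx R (e i k) (B' k i)) (k i : ι) :
    B k i = B' k i := by
  have h1 := bx_sum_comp R e o he B i k
  rw [h, bx_sum_comp R e o he B' i k] at h1
  refine (bx_cancel R (e i i) ?_ _ _ h1).symm
  intro h0
  have h2 := he.tr i i
  rw [h0] at h2
  simp at h2

lemma re_whisker {M X Y : C} (e : R.H.obj M ⟶ R.H.obj M) (B : R.H.obj Y ⟶ R.H.obj Y)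
    (i : X ⟶ Y) (r : Y ⟶ X) : R.H.map (M ◁ i) ≫ bx R e B ≫ R.H.map (M ◁ r) =
      bx R e (R.H.map i ≫ B ≫ R.H.map r) := by
  simp only [bx, Functor.Monoidal.map_whiskerLeft, Category.assoc, Functor.Monoidal.μ_δ_assoc]
  simp only [← id_tensorHom, tensorHom_comp_tensorHom_assoc, Category.id_comp, Category.comp_id]

end Real

/-- SUM -/
theorem p_SUM : P_SUM.{u, v, w} := by
  intro C _ _ _ _ _ _ _ _ K _ R M T P ι _ _ o e he a A hA i r hir hcomm
  have hp : R.H.map (M ◁ (r ≫ i)) = bx R (𝟙 _) (R.H.map (r ≫ i)) := by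
    rw [← CategoryTheory.Functor.map_id, bx_map, id_tensorHom]
  have h1 : ∀ k l, Commute (R.H.map (r ≫ i)).hom (A k l) := by
    intro k l
    have h2 : (∑ i', ∑ k, bx R (e i' k) (R.H.map (r ≫ i) ≫ ModuleCat.ofHom (A k i'))) =
        ∑ i', ∑ k, bx R (e i' k) (ModuleCat.ofHom (A k i') ≫ R.H.map (r ≫ i)) := by
      have h3 := hcomm
      rw [Functor.map_comp, Functor.map_comp, hA.re, hp] at h3
      simpa only [Preadditive.comp_sum, Preadditive.sum_comp, bx_comp, Category.id_comp,
        Category.comp_id] using h3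
    have h4 := re_unique R e o he (fun k i' => R.H.map (r ≫ i) ≫ ModuleCat.ofHom (A k i'))
      (fun k i' => ModuleCat.ofHom (A k i') ≫ R.H.map (r ≫ i)) h2 k l
    have h5 := congrArg ModuleCat.Hom.hom h4
    simp only [ModuleCat.hom_comp, ModuleCat.hom_ofHom] at h5
    exact h5.symm
  refine ⟨h1, ?_, ?_, ?_⟩
  · unfold Re
    rw [Functor.map_comp, Functor.map_comp, hA.re]
    simp only [Preadditive.comp_sum, Preadditive.sum_comp, re_whisker]
    rfl
  · refine glRel_sum o A (R.H.map i).hom (R.H.map r).hom ?_ ?_ hA.rel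
    · have h2 := congrArg (fun z => (R.H.map z).hom) hir
      simp only [Functor.map_comp, ModuleCat.hom_comp, CategoryTheory.Functor.map_id] at h2
      exact h2
    · intro k l
      have h2 := h1 k l
      rw [Functor.map_comp, ModuleCat.hom_comp] at h2
      exact h2
  · refine parRel_sum o A (R.H.map i).hom (R.H.map r).hom (R.par T).hom (R.par P).hom ?_ ?_ hA.par
    · intro x
      have h2 := LinearMap.congr_fun (congrArg ModuleCat.Hom.hom (R.par_natural i)) x
      exact h2
    · intro x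
      have h2 := LinearMap.congr_fun (congrArg ModuleCat.Hom.hom (R.par_natural r)) x
      exact h2

end Pool.Agent.W2helper47.SG
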